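import Pool.Agent.Lib.MP_8f11b1_co_RX.Main

/-! For every finite field `F` and every matroid `Z` that is obtained from an `F`-representable
matroid by relaxing a circuit-hyperplane there is an `F`-representable matroid `N` such that for
every minor-closed class `C` which contains the `F`-representable matroids but not `Z`, the union
of `C` with the class `Ex N` has infinitely many excluded minors. The definitions are in
`Pool/Agent/Lib/MP_8f11b1_co_RX/Defs.lean`. -/

set_option autoImplicit false

namespace Pool.Agent.Results.MP_8f11b1_co.RelaxationUnions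

open Pool.Agent.MP8f11b1

/-- **Theorem.** (1) Let `F` be a finite field and `Z` the relaxation of a circuit-hyperplane of
a finite `F`-representable matroid. There is a finite `F`-representable matroid `N` such that for
every minor-closed class `C` that contains all finite `F`-representable matroids but not `Z`, the
class `C ∪ Ex(N)` has excluded minors with arbitrarily many elements.
(2) Let `F` be a finite field with `q` elements and `U` a uniform matroid of rank 2 on `q + 2`
elements. The class `Ex(U)` of the finite matroids with no minor isomorphic to `U` is minor-closed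
and contains all finite `F`-representable matroids, and there is a finite `F`-representable
matroid `N` such that for every minor-closed class `C` between the class of the finite
`F`-representable matroids and `Ex(U)` the class `C ∪ Ex(N)` has excluded minors with arbitrarily
many elements; in particular this holds for `C = Ex(U)`. -/
theorem result :
    (∀ (F : Type) [Field F] [Finite F] (β : Type) (Z₀ Z : Matroid β) (K : Set β),
      Z₀.Finite → Rep F Z₀ → IsRelaxation Z₀ K Z →
      ∃ (γ : Type) (N : Matroid γ), N.Finite ∧ Rep F N ∧
        ∀ C : ∀ α : Type, Matroid α → Prop, IsMinorClosed C →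
          (∀ (α : Type) (M : Matroid α), M.Finite → Rep F M → C α M) → ¬ C β Z →
          ∀ k : ℕ, ∃ (α : Type) (M : Matroid α),
            IsExcludedMinor (Union C (Ex N)) M ∧ k ≤ M.E.ncard) ∧
    (∀ (F : Type) [Field F] [Finite F] (β : Type) (U : Matroid β), IsU2 (Nat.card F + 2) U →
      IsMinorClosed (Ex U) ∧
      (∀ (α : Type) (M : Matroid α), M.Finite → Rep F M → Ex U α M) ∧
      ∃ (γ : Type) (N : Matroid γ), N.Finite ∧ Rep F N ∧
        (∀ C : ∀ α : Type, Matroid α → Prop, IsMinorClosed C →
          (∀ (α : Type) (M : Matroid α), M.Finite → Rep F M → C α M) →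
          (∀ (α : Type) (M : Matroid α), C α M → Ex U α M) →
          ∀ k : ℕ, ∃ (α : Type) (M : Matroid α),
            IsExcludedMinor (Union C (Ex N)) M ∧ k ≤ M.E.ncard) ∧
        ∀ k : ℕ, ∃ (α : Type) (M : Matroid α),
            IsExcludedMinor (Union (Ex U) (Ex N)) M ∧ k ≤ M.E.ncard) := by
  refine ⟨fun F _ _ β Z₀ Z K h1 h2 h3 => main_A F β Z₀ Z K h1 h2 h3, ?_⟩
  intro F _ _ β U hU
  obtain ⟨e1, e2, e3⟩ := ex_u2 F U hU
  obtain ⟨γ, N, n1, n2, n3⟩ := main_B F
  refine ⟨e1, e2, γ, N, n1, n2, ?_, ?_⟩
  · intro C hC hCF hCU
    exact n3 C hC hCF fun α M hM => e3 α M (hCU α M hM)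
  · exact n3 (Ex U) e1 e2 e3

end Pool.Agent.Results.MP_8f11b1_co.RelaxationUnions
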