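import Pool.Agent.Lib.MP_97f6bf_co.Tree
import Pool.Agent.Lib.MP_97f6bf_co.Cycles

/-! Unions of two minor-closed classes of matroids, each with at most two excluded minors,
whose excluded minors have unbounded branch-width. -/

set_option autoImplicit false

namespace Pool.Agent.Results.MP_8f11b1_co.UnionBranchWidth

/-- `M` and `N` are isomorphic. -/
def Iso {α β : Type} (M : Matroid α) (N : Matroid β) : Prop :=
  ∃ e : ↥M.E ≃ ↥N.E, ∀ I : Set ↥M.E,
    M.Indep (Subtype.val '' I) ↔ N.Indep (Subtype.val '' (e '' I))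

/-- `M` is the uniform matroid of rank 4 on 8 elements. -/
def IsU48 {α : Type} (M : Matroid α) : Prop :=
  M.E.ncard = 8 ∧ ∀ I ⊆ M.E, M.Indep I ↔ I.ncard ≤ 4

/-- The class of the finite matroids with no minor isomorphic to `N` and no minor `U_{4,8}`. -/
def Free {β : Type} (N : Matroid β) (α : Type) (M : Matroid α) : Prop :=
  M.Finite ∧ (¬ ∃ M' : Matroid α, M'.IsMinor M ∧ Iso M' N) ∧
    ¬ ∃ M' : Matroid α, M'.IsMinor M ∧ IsU48 M'

/-- `M` is an excluded minor of the class `C` of finite matroids. -/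
def IsExcludedMinor (C : ∀ α : Type, Matroid α → Prop) {α : Type} (M : Matroid α) : Prop :=
  M.Finite ∧ ¬ C α M ∧ ∀ M' : Matroid α, M'.IsMinor M → M' ≠ M → C α M'

/-- The union of two classes. -/
def Union (C₁ C₂ : ∀ α : Type, Matroid α → Prop) (α : Type) (M : Matroid α) : Prop :=
  C₁ α M ∨ C₂ α M

/-- `M` has a branch-decomposition of width at most `n`: a finite tree `T` with all degrees at
most 3 and a bijection from the elements of `M` to the leaves of `T` such that
`r(X) + r(E - X) - r(E) + 1 ≤ n` for every edge of `T`, `X` being the set of elements on one side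
of the edge. -/
def BranchWidthLE {α : Type} (M : Matroid α) (n : ℕ) : Prop :=
  ∃ (V : Type) (_ : Finite V) (T : SimpleGraph V),
    T.IsAcyclic ∧ T.Preconnected ∧ (∀ v, (T.neighborSet v).ncard ≤ 3) ∧
    ∃ f : ↥M.E ≃ {v : V // (T.neighborSet v).ncard ≤ 1},
      ∀ u v : V, T.Adj u v →
        M.eRk {x | ∃ h : x ∈ M.E, (T.deleteEdges {s(u, v)}).Reachable u (f ⟨x, h⟩).1}
          + M.eRk (M.E \ {x | ∃ h : x ∈ M.E,
              (T.deleteEdges {s(u, v)}).Reachable u (f ⟨x, h⟩).1}) + 1
          ≤ M.eRank + (n : ℕ∞)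

theorem iso_refl {α : Type} (M : Matroid α) : Iso M M := by
  refine ⟨Equiv.refl _, fun I => ?_⟩
  simp

/-- the excluded minors of `Free N` are `N` and `U_{4,8}` at most -/
theorem free_excluded {β : Type} (N : Matroid β) {α : Type} (M : Matroid α)
    (h : IsExcludedMinor (Free N) M) : Iso M N ∨ IsU48 M := by
  obtain ⟨hf, hn, hp⟩ := h
  by_contra hcon
  rw [not_or] at hcon
  apply hn
  refine ⟨hf, ?_, ?_⟩
  · rintro ⟨M', hM', hi⟩
    by_cases he : M' = M
    · exact hcon.1 (he ▸ hi)
    · exact (hp M' hM' he).2.1 ⟨M', Matroid.IsMinor.refl, hi⟩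
  · rintro ⟨M', hM', hi⟩
    by_cases he : M' = M
    · exact hcon.2 (he ▸ hi)
    · exact (hp M' hM' he).2.2 ⟨M', Matroid.IsMinor.refl, hi⟩

open Pool.Agent.MP97f6bf in
/-- **Theorem.** There are matroids `N₁`, `N₂` on ten elements such that, for the minor-closed
classes `C i` of the finite matroids with neither `N i` nor `U_{4,8}` as a minor, each of which
has at most the two excluded minors `N i` and `U_{4,8}`, the union `C₁ ∪ C₂` has excluded minors
of arbitrarily large branch-width, and these can be taken without `U_{4,8}`-minor. -/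
theorem result :
    ∃ N₁ N₂ : Matroid (Fin 5 × Bool), N₁.E = Set.univ ∧ N₂.E = Set.univ ∧
      (∀ (α : Type) (M : Matroid α), IsExcludedMinor (Free N₁) M → Iso M N₁ ∨ IsU48 M) ∧
      (∀ (α : Type) (M : Matroid α), IsExcludedMinor (Free N₂) M → Iso M N₂ ∨ IsU48 M) ∧
      ∀ n : ℕ, ∃ (α : Type) (M : Matroid α),
        IsExcludedMinor (Union (Free N₁) (Free N₂)) M ∧
        (¬ ∃ M' : Matroid α, M'.IsMinor M ∧ IsU48 M') ∧
        ¬ BranchWidthLE M n := by
  classical
  refine ⟨MM (D5 false), MM (D5 true), rfl, rfl, fun α M h => free_excluded _ M h,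
    fun α M h => free_excluded _ M h, ?_⟩
  intro n₀
  set k := 3 * (n₀ + 28) + 5 with hk
  set H := grid k with hH
  have hex : ∃ m : ℕ, ∃ M' : Matroid (VV (k + 1) × Bool), M'.IsMinor (MM H.G.data) ∧
      (∀ b, Big.HasMinor b M') ∧ M'.E.ncard = m :=
    ⟨_, MM H.G.data, Matroid.IsMinor.refl, fun b => H.G.hasMinor b, rfl⟩
  obtain ⟨M', hM', hboth, hcard⟩ := Nat.find_spec hex
  have hmin := fun m (hm : m < Nat.find hex) => Nat.find_min hex hm
  have hfin : ∀ S : Set (VV (k + 1) × Bool), S.Finite := fun S => Set.toFinite S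
  have hM : ∀ B, (MM H.G.data).IsBase B → IsTr H.G.data.σ B :=
    fun B hB => ((MM_isBase _ B).1 hB).1
  have hU : ∀ N : Matroid (VV (k + 1) × Bool), N.IsMinor M' → ¬ IsU48 N := by
    rintro N hN ⟨hc, hI⟩
    exact no_uniform hM (hN.trans hM') (by omega) hI
  refine ⟨VV (k + 1) × Bool, M', ⟨⟨hfin _⟩, ?_, ?_⟩, ?_, ?_⟩
  · rintro (h | h)
    · exact h.2.1 (hboth false)
    · exact h.2.1 (hboth true)
  · intro M'' hM'' hne
    have hsub : M''.E ⊂ M'.E := by
      refine hM''.subset.ssubset_of_ne ?_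
      intro hE
      exact hne (hM''.eq_of_ground_subset hE.symm.subset).symm
    have hlt : M''.E.ncard < Nat.find hex := by
      rw [← hcard]
      exact Set.ncard_lt_ncard hsub (hfin _)
    by_contra hcon
    unfold Union at hcon
    rw [not_or] at hcon
    refine hmin _ hlt ⟨M'', hM''.trans hM', ?_, rfl⟩
    have key : ∀ b, ¬ Free (MM (D5 b)) _ M'' → Big.HasMinor b M'' := by
      intro b hb
      by_contra hc
      apply hb
      refine ⟨⟨hfin _⟩, hc, ?_⟩
      rintro ⟨N, hN, hNU⟩
      exact hU N (hN.trans hM'') hNU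
    intro b
    cases b
    · exact key false hcon.1
    · exact key true hcon.2
  · rintro ⟨N, hN, hNU⟩
    exact hU N hN hNU
  · rintro ⟨W, hW, T, hA, hC, h3, f, hw⟩
    exact H.tree_contra n₀ hk hM' (H.G.outer_subset hM' hboth) hW T hA hC h3 f
      (fun u v huv => le_trans le_self_add (hw u v huv))

end Pool.Agent.Results.MP_8f11b1_co.UnionBranchWidth
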