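import Pool.Agent.Lib.MP_8f11b1_co_AM.Main3

/-! Classification of the matroids `U` such that for every matroid `N` the class `Ex(U) ∪ Ex(N)`
has only finitely many excluded minors. The definitions are in
`Pool/Agent/Lib/MP_8f11b1_co_RX/Defs.lean` (`IsExcludedMinor`, `Union`, `Ex`, `Iso`),
`Pool/Agent/Lib/MP_8f11b1_co_DU/Defs.lean` (`IsU`) and
`Pool/Agent/Lib/MP_8f11b1_co_AM/Defs.lean` (`IsW`). -/

set_option autoImplicit false

namespace Pool.Agent.Results.MP_8f11b1_co.UnionClassification

open Pool.Agent.MP8f11b1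

/-- The good matroids: uniform matroids of rank or corank at most one, and the matroids with
exactly one dependent set `C` of size `a`, the rank (`W_{a,b}`), for which `a = 1` or `b = a + 1`
or `a = 2` and `b = 4`. -/
def IsGood {α : Type} (U : Matroid α) : Prop :=
  (∃ a b, a ≤ b ∧ IsU a b U ∧ (a ≤ 1 ∨ b ≤ a + 1)) ∨
    ∃ a b, 1 ≤ a ∧ a < b ∧ IsW a b U ∧ (a = 1 ∨ b = a + 1 ∨ (a = 2 ∧ b = 4))

/-- **Theorem.** Let `U` be a finite matroid and let `Ex(N)` be the class of the finite matroids
with no minor isomorphic to `N`. If `U` is good then for every finite matroid `N` every excluded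
minor of `Ex(U) ∪ Ex(N)` has at most `4 (|U| + 1) (|N| + 1)` elements. If `U` is not good then
there is a finite matroid `N` such that `Ex(U) ∪ Ex(N)` has excluded minors with arbitrarily many
elements. -/
theorem result (α : Type) (U : Matroid α) (hU : U.Finite) :
    (IsGood U → ∀ (γ : Type) (N : Matroid γ), N.Finite →
      ∀ (δ : Type) (M : Matroid δ), IsExcludedMinor (Union (Ex U) (Ex N)) M →
        M.E.ncard ≤ 4 * (U.E.ncard + 1) * (N.E.ncard + 1)) ∧
    (¬ IsGood U → ∃ (γ : Type) (N : Matroid γ), N.Finite ∧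
      ∀ k : ℕ, ∃ (δ : Type) (M : Matroid δ),
        IsExcludedMinor (Union (Ex U) (Ex N)) M ∧ k ≤ M.E.ncard) :=
  ⟨fun h => finC_good U h, fun h => bad_not_good U hU h⟩

end Pool.Agent.Results.MP_8f11b1_co.UnionClassification
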