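import Pool.Agent.Lib.MP_8f11b1_co_OG.Fin

/-! A positive answer for unions `C ∪ D` of minor-closed classes where `C` omits a good matroid.
The definitions are in `Pool/Agent/Lib/MP_8f11b1_co_RX/Defs.lean` (`IsExcludedMinor`, `Union`,
`IsMinorClosed`, `Iso`), `Pool/Agent/Lib/MP_8f11b1_co_DU/Defs.lean` (`IsU`) and
`Pool/Agent/Lib/MP_8f11b1_co_AM/Defs.lean` (`IsW`). -/

set_option autoImplicit false

namespace Pool.Agent.Results.MP_8f11b1_co.UnionsOmittingGood

open Pool.Agent.MP8f11b1

/-- The good matroids: uniform matroids of rank or corank at most one, and the matroids with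
exactly one dependent set `C` of size `a`, the rank (`W_{a,b}`), for which `a = 1` or `b = a + 1`
or `a = 2` and `b = 4`. -/
def IsGood {α : Type} (U : Matroid α) : Prop :=
  (∃ a b, a ≤ b ∧ IsU a b U ∧ (a ≤ 1 ∨ b ≤ a + 1)) ∨
    ∃ a b, 1 ≤ a ∧ a < b ∧ IsW a b U ∧ (a = 1 ∨ b = a + 1 ∨ (a = 2 ∧ b = 4))

/-- **Theorem.** Let `C` and `D` be minor-closed classes of matroids whose excluded minors have
at most `s` and at most `t` elements, respectively, and let `U` be a good matroid which is not in
`C`. Then every excluded minor of `C ∪ D` has at most `4 (|U| + 1) (s + t + 1)` elements. -/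
theorem result (C D : ∀ α : Type, Matroid α → Prop) (hC : IsMinorClosed C)
    (hD : IsMinorClosed D) (s t : ℕ)
    (hs : ∀ (δ : Type) (M : Matroid δ), IsExcludedMinor C M → M.E.ncard ≤ s)
    (ht : ∀ (δ : Type) (M : Matroid δ), IsExcludedMinor D M → M.E.ncard ≤ t)
    (α : Type) (U : Matroid α) (hU : IsGood U) (hUC : ¬ C α U)
    (δ : Type) (M : Matroid δ) (hM : IsExcludedMinor (Union C D) M) :
    M.E.ncard ≤ 4 * (U.E.ncard + 1) * (s + t + 1) :=
  og_main hC hD hs ht U hU hUC M hM

end Pool.Agent.Results.MP_8f11b1_co.UnionsOmittingGood
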